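import Pool.Agent.helper52.EU.SpecK
import Pool.Agent.helper36.YB.Spec

/-!
# Row UHX: the characters, and the sum over the odd classes
-/

set_option autoImplicit false

open Finset

namespace Pool.Agent.EU

open Pool.Agent.FI Pool.Agent.HK Pool.Agent.BP Pool.Agent.YB
open Pool.Agent.CH (nit rgh)

theorem UHX_even (q : ℕ) (ξ : ℤ × ℤ → ℂ) (hξ : IsX q ξ) (a b : ℕ) (ha : ¬ a % 2 = 1) : ξ ((a : ℤ), (b : ℤ)) = 0 := by
  obtain ⟨hq2, _, _, _, hzero, _⟩ := hξ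
  apply hzero
  intro h
  have h1 : 2 ∣ nn ((a : ℤ), (b : ℤ)) := by
    unfold nn N8
    obtain ⟨c, hc⟩ : 2 ∣ a := by omega
    have h2 : (2 : ℤ) ∣ ((a : ℤ), (b : ℤ)).1 ^ 2 - 8 * ((a : ℤ), (b : ℤ)).2 ^ 2 := by
      refine ⟨2 * (c : ℤ) ^ 2 - 4 * (b : ℤ) ^ 2, ?_⟩
      show (a : ℤ) ^ 2 - 8 * (b : ℤ) ^ 2 = 2 * (2 * (c : ℤ) ^ 2 - 4 * (b : ℤ) ^ 2)
      rw [hc]
      push_cast
      ring
    exact Int.natCast_dvd.mp (by exact_mod_cast h2)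
  have h3 := Nat.dvd_gcd h1 hq2
  rw [Nat.Coprime] at h
  rw [h] at h3
  omega

theorem UHX (hUXH : UXH_stmt) (hMZX : MZX_stmt) : UHX_stmt := by
  refine ⟨hUXH, fun q ξ hξ hN => ?_⟩
  have h0 := hMZX q ξ hξ hN
  have hper := hξ.2.2.2.1
  rw [Finset.sum_filter]
  have h1 : ∀ v ∈ range (2 * q) ×ˢ range (2 * q),
      (if v.1 % 2 = 1 then ξ ((v.1 : ℤ), (v.2 : ℤ)) else 0) = ξ ((v.1 : ℤ), (v.2 : ℤ)) := by
    intro v _
    by_cases hv : v.1 % 2 = 1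
    · rw [if_pos hv]
    · rw [if_neg hv, UHX_even q ξ hξ v.1 v.2 hv]
  rw [Finset.sum_congr rfl h1, Finset.sum_product]
  rw [Finset.sum_product] at h0
  have h2 : ∀ a : ℕ, ∑ b ∈ range (2 * q), ξ ((a : ℤ), (b : ℤ)) = 2 * ∑ b ∈ range q, ξ ((a : ℤ), (b : ℤ)) := by
    intro a
    rw [two_mul q, Finset.sum_range_add, two_mul]
    congr 1
    refine Finset.sum_congr rfl fun b _ => ?_
    refine hper _ _ (by simp) ?_
    show (q : ℤ) ∣ ((q + b : ℕ) : ℤ) - (b : ℤ)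
    push_cast
    simp
  have h3 : ∑ a ∈ range (2 * q), ∑ b ∈ range q, ξ ((a : ℤ), (b : ℤ)) = 2 * ∑ a ∈ range q, ∑ b ∈ range q, ξ ((a : ℤ), (b : ℤ)) := by
    rw [two_mul q, Finset.sum_range_add, two_mul]
    congr 1
    refine Finset.sum_congr rfl fun a _ => Finset.sum_congr rfl fun b _ => ?_
    refine hper _ _ ?_ (by simp)
    show (q : ℤ) ∣ ((q + a : ℕ) : ℤ) - (a : ℤ)
    push_cast
    simp
  show ∑ a ∈ range (2 * q), ∑ b ∈ range (2 * q), ξ ((a : ℤ), (b : ℤ)) = 0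
  rw [Finset.sum_congr rfl fun a _ => h2 a, ← Finset.mul_sum, h3]
  have h4 : ∑ a ∈ range q, ∑ b ∈ range q, ξ ((a : ℤ), (b : ℤ)) = 0 := h0
  rw [h4]
  simp

end Pool.Agent.EU
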